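import Pool.Agent.Q276.BA.Stm

/-!
# Project BA (helper276): the numerical inequalities `S_H1` and `S_H2`
-/

set_option autoImplicit false

open MeasureTheory Set Filter Topology
open scoped BigOperators

namespace Pool.Agent.Q130.BA.H12

open Pool.Agent.Q276.BA

/-! ### `S_H2` -/

theorem wt_pair (n k : ℝ) (hn : 1 ≤ n) (h1 : -n ≤ k) (h2 : k ≤ n) :
    (n - k) * (4 * n - k) / (4 * n - 2 * k) + (n + k) * (4 * n + k) / (4 * n + 2 * k) ≤ 2 * n := by
  have ha : 0 < 4 * n - 2 * k := by linarith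
  have hb : 0 < 4 * n + 2 * k := by linarith
  rw [div_add_div _ _ ha.ne' hb.ne', div_le_iff₀ (mul_pos ha hb)]
  nlinarith [mul_nonneg (by linarith : (0 : ℝ) ≤ n) (sq_nonneg k)]

theorem h2 : S_H2 := by
  intro n D hn hD
  have hn1 : (1 : ℝ) ≤ n := by exact_mod_cast hn
  have hrefl : ∑ k ∈ Finset.Icc (-(D : ℤ)) D, wt n k = ∑ k ∈ Finset.Icc (-(D : ℤ)) D, wt n (-k) := by
    refine Finset.sum_equiv (Equiv.neg ℤ) ?_ ?_
    · intro k
      simp only [Finset.mem_Icc, Equiv.neg_apply]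
      omega
    · intro k _
      simp
  have hsum : ∑ k ∈ Finset.Icc (-(D : ℤ)) D, (wt n k + wt n (-k)) ≤
      ∑ k ∈ Finset.Icc (-(D : ℤ)) D, (2 * (n : ℝ)) := by
    refine Finset.sum_le_sum ?_
    intro k hk
    rw [Finset.mem_Icc] at hk
    have hk1 : -(n : ℝ) ≤ (k : ℝ) := by
      have : -(n : ℤ) ≤ k := by omega
      exact_mod_cast this
    have hk2 : (k : ℝ) ≤ (n : ℝ) := by
      have : k ≤ (n : ℤ) := by omega
      exact_mod_cast this
    have := wt_pair n k hn1 hk1 hk2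
    simp only [wt]
    push_cast
    simpa using this
  rw [Finset.sum_add_distrib, ← hrefl, Finset.sum_const, nsmul_eq_mul, Int.card_Icc] at hsum
  have hc : (((D : ℤ) + 1 - -(D : ℤ)).toNat : ℝ) = 2 * D + 1 := by
    have : ((D : ℤ) + 1 - -(D : ℤ)).toNat = 2 * D + 1 := by omega
    rw [this]
    push_cast
    ring
  rw [hc] at hsum
  linarith

/-! ### `S_H1` -/

theorem qq_cont (b N : ℕ) : Continuous (qq b N) := by
  unfold qq pp
  fun_prop

theorem QQ_cont (n : ℕ) (k : ℤ) : Continuous (QQ n k) := qq_cont _ _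

theorem natAbs_cast (k : ℤ) (h : k ≤ 0) : ((k.natAbs : ℕ) : ℝ) = -(k : ℝ) := by
  have h0 : ((k.natAbs : ℕ) : ℤ) = -k := by omega
  calc ((k.natAbs : ℕ) : ℝ) = (((k.natAbs : ℕ) : ℤ) : ℝ) := (Int.cast_natCast _).symm
    _ = ((-k : ℤ) : ℝ) := by rw [h0]
    _ = -(k : ℝ) := Int.cast_neg k

/-- the two integrals for `QQ` -/
theorem QQ_sq (h3 : S_A3) (n : ℕ) (k : ℤ) (hk : k ≤ n) :
    ∫ v in (0 : ℝ)..1, (QQ n k v) ^ 2 = (n : ℝ) * (n - k) := by
  unfold QQ
  rw [h3]
  rcases le_or_gt 0 k with h | h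
  · obtain ⟨m, rfl⟩ := Int.eq_ofNat_of_zero_le h
    have hm : m ≤ n := by exact_mod_cast hk
    simp only [Int.toNat_natCast, Int.natAbs_natCast]
    rw [Nat.cast_sub hm]
    push_cast
    ring
  · have h0 : k.toNat = 0 := by omega
    have h1 : ((k.natAbs : ℕ) : ℝ) = -(k : ℝ) := natAbs_cast k h.le
    rw [h0, h1]
    simp only [Nat.sub_zero]
    ring

theorem QQ_sqw (h4 : S_A4) (n : ℕ) (k : ℤ) (hk : k ≤ n) :
    ∫ v in (0 : ℝ)..1, (1 - v) * (QQ n k v) ^ 2 = (n : ℝ) * (n - k) / (2 * n - k) := by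
  unfold QQ
  rw [h4]
  rcases le_or_gt 0 k with h | h
  · obtain ⟨m, rfl⟩ := Int.eq_ofNat_of_zero_le h
    have hm : m ≤ n := by exact_mod_cast hk
    simp only [Int.toNat_natCast, Int.natAbs_natCast]
    rw [Nat.cast_sub hm]
    push_cast
    congr 1 <;> ring
  · have h0 : k.toNat = 0 := by omega
    have h1 : ((k.natAbs : ℕ) : ℝ) = -(k : ℝ) := natAbs_cast k h.le
    rw [h0, h1]
    simp only [Nat.sub_zero]
    congr 1

/-- `∫ 1 / (1 + 2 n (1 - v)) = log (2 n + 1) / (2 n)` -/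
theorem int_w (n : ℝ) (hn : 1 ≤ n) :
    ∫ v in (0 : ℝ)..1, 1 / (1 + 2 * n * (1 - v)) = Real.log (2 * n + 1) / (2 * n) := by
  have hpos : ∀ v ∈ uIcc (0 : ℝ) 1, 0 < 1 + 2 * n * (1 - v) := by
    intro v hv
    rw [uIcc_of_le zero_le_one] at hv
    have : 0 ≤ 2 * n * (1 - v) := mul_nonneg (by linarith) (by linarith [hv.2])
    linarith
  have hderiv : ∀ v ∈ uIcc (0 : ℝ) 1, HasDerivAt (fun v => -(Real.log (1 + 2 * n * (1 - v)) / (2 * n)))
      (1 / (1 + 2 * n * (1 - v))) v := by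
    intro v hv
    have hp := hpos v hv
    have h1 : HasDerivAt (fun v : ℝ => 1 + 2 * n * (1 - v)) (2 * n * (-1)) v := by
      have := (((hasDerivAt_id v).const_sub 1).const_mul (2 * n)).const_add 1
      simpa using this
    have h2 := ((h1.log hp.ne').div_const (2 * n)).neg
    have hn0 : n ≠ 0 := by linarith
    have hp0 := hp.ne'
    have : 2 * n * -1 / (1 + 2 * n * (1 - v)) / (2 * n) = -(1 / (1 + 2 * n * (1 - v))) := by
      rw [div_div, neg_div', mul_neg_one]
      rw [div_eq_div_iff (mul_ne_zero hp0 (by positivity)) hp0]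
      ring
    rw [this, neg_neg] at h2
    exact h2
  rw [intervalIntegral.integral_eq_sub_of_hasDerivAt hderiv]
  · simp only [sub_self, mul_zero, add_zero, Real.log_one, zero_div, neg_zero, sub_zero, mul_one, zero_sub, neg_neg]
    rw [add_comm 1 (2 * n)]
  · refine ContinuousOn.intervalIntegrable ?_
    refine ContinuousOn.div continuousOn_const (by fun_prop) ?_
    intro v hv
    exact (hpos v hv).ne'

/-- Cauchy-Schwarz -/
theorem cs (w G : ℝ → ℝ) (hw : ContinuousOn w (uIcc (0 : ℝ) 1)) (hw0 : ∀ v ∈ uIcc (0 : ℝ) 1, 0 < w v)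
    (hG : Continuous G) (hG0 : ∀ v, 0 ≤ G v) :
    ∫ v in (0 : ℝ)..1, Real.sqrt (G v) ≤
      Real.sqrt ((∫ v in (0 : ℝ)..1, 1 / w v) * ∫ v in (0 : ℝ)..1, w v * G v) := by
  set A := ∫ v in (0 : ℝ)..1, 1 / w v
  set B := ∫ v in (0 : ℝ)..1, w v * G v
  set C := ∫ v in (0 : ℝ)..1, Real.sqrt (G v)
  have i1 : IntervalIntegrable (fun v => 1 / w v) volume 0 1 :=
    (continuousOn_const.div hw (fun v hv => (hw0 v hv).ne')).intervalIntegrable
  have i2 : IntervalIntegrable (fun v => w v * G v) volume 0 1 :=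
    (hw.mul hG.continuousOn).intervalIntegrable
  have i3 : IntervalIntegrable (fun v => Real.sqrt (G v)) volume 0 1 :=
    (Real.continuous_sqrt.comp hG).intervalIntegrable _ _
  have hq : ∀ t : ℝ, 0 ≤ A * (t * t) + (-2 * C) * t + B := by
    intro t
    have h1 : ∫ v in (0 : ℝ)..1, ((t * t) * (1 / w v) + (-2 * t) * Real.sqrt (G v) + w v * G v) =
        (t * t) * A + (-2 * t) * C + B := by
      rw [intervalIntegral.integral_add ((i1.const_mul _).add (i3.const_mul _)) i2,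
        intervalIntegral.integral_add (i1.const_mul _) (i3.const_mul _),
        intervalIntegral.integral_const_mul, intervalIntegral.integral_const_mul]
    have h2 : 0 ≤ ∫ v in (0 : ℝ)..1, ((t * t) * (1 / w v) + (-2 * t) * Real.sqrt (G v) + w v * G v) := by
      refine intervalIntegral.integral_nonneg zero_le_one ?_
      intro v hv
      have hv' : v ∈ uIcc (0 : ℝ) 1 := by rwa [uIcc_of_le zero_le_one]
      have hp := hw0 v hv'
      have hs : Real.sqrt (G v) * Real.sqrt (G v) = G v := Real.mul_self_sqrt (hG0 v)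
      have : (t * t) * (1 / w v) + (-2 * t) * Real.sqrt (G v) + w v * G v =
          (t - w v * Real.sqrt (G v)) ^ 2 / w v := by
        nth_rewrite 2 [← hs]
        field_simp
        ring
      rw [this]
      positivity
    linarith [h1 ▸ h2]
  have hd := discrim_le_zero (a := A) (b := -2 * C) (c := B) (by
    intro x
    have := hq x
    linarith)
  unfold discrim at hd
  refine Real.le_sqrt_of_sq_le ?_
  nlinarith

theorem h1 : S_H1 := by
  intro h3 h4 n S hn hS
  have hn1 : (1 : ℝ) ≤ n := by exact_mod_cast hn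
  have hpos : ∀ v ∈ uIcc (0 : ℝ) 1, 0 < 1 + 2 * (n : ℝ) * (1 - v) := by
    intro v hv
    rw [uIcc_of_le zero_le_one] at hv
    have : 0 ≤ 2 * (n : ℝ) * (1 - v) := mul_nonneg (by linarith) (by linarith [hv.2])
    linarith
  have hG : Continuous (fun v => ∑ k ∈ S, (QQ n k v) ^ 2) :=
    continuous_finsetSum _ (fun k _ => (QQ_cont n k).pow 2)
  have key := cs (fun v => 1 + 2 * (n : ℝ) * (1 - v)) (fun v => ∑ k ∈ S, (QQ n k v) ^ 2)
    (by fun_prop) hpos hG (fun v => Finset.sum_nonneg (fun k _ => sq_nonneg _))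
  refine key.trans (le_of_eq ?_)
  congr 1
  rw [int_w n hn1]
  have hB : ∫ v in (0 : ℝ)..1, (1 + 2 * (n : ℝ) * (1 - v)) * ∑ k ∈ S, (QQ n k v) ^ 2 =
      ∑ k ∈ S, ((n : ℝ) * (n - k) + 2 * n * ((n : ℝ) * (n - k) / (2 * n - k))) := by
    have e1 : ∀ v : ℝ, (1 + 2 * (n : ℝ) * (1 - v)) * ∑ k ∈ S, (QQ n k v) ^ 2 =
        ∑ k ∈ S, ((QQ n k v) ^ 2 + (2 * n) * ((1 - v) * (QQ n k v) ^ 2)) := by
      intro v
      rw [Finset.mul_sum]
      refine Finset.sum_congr rfl (fun k _ => ?_)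
      ring
    have j1 : ∀ k : ℤ, IntervalIntegrable (fun v => (QQ n k v) ^ 2) volume 0 1 := fun k =>
      ((QQ_cont n k).pow 2).intervalIntegrable _ _
    have j2 : ∀ k : ℤ, IntervalIntegrable (fun v => (2 * (n : ℝ)) * ((1 - v) * (QQ n k v) ^ 2)) volume 0 1 :=
      fun k => (continuous_const.mul ((continuous_const.sub continuous_id).mul
        ((QQ_cont n k).pow 2))).intervalIntegrable _ _
    simp_rw [e1]
    rw [intervalIntegral.integral_finsetSum (fun k _ => (j1 k).add (j2 k))]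
    refine Finset.sum_congr rfl (fun k hk => ?_)
    rw [intervalIntegral.integral_add (j1 k) (j2 k), intervalIntegral.integral_const_mul,
      QQ_sq h3 n k (hS k hk), QQ_sqw h4 n k (hS k hk)]
  rw [hB, Finset.mul_sum, Finset.mul_sum]
  refine Finset.sum_congr rfl (fun k hk => ?_)
  have hk1 : (k : ℝ) ≤ n := by exact_mod_cast hS k hk
  have hp1 : 2 * (n : ℝ) - k ≠ 0 := by
    have : 0 < 2 * (n : ℝ) - k := by linarith
    exact this.ne'
  have hp2 : 4 * (n : ℝ) - 2 * k ≠ 0 := by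
    have : 0 < 4 * (n : ℝ) - 2 * k := by linarith
    exact this.ne'
  have hn0 : (n : ℝ) ≠ 0 := by linarith
  unfold wt
  have : 4 * (n : ℝ) - 2 * k = 2 * (2 * n - k) := by ring
  rw [this]
  field_simp
  ring

end Pool.Agent.Q130.BA.H12
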